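import Mathlib

set_option autoImplicit false

/-! # Extending homeomorphisms of the cube `I^q` to the cube `I^(q+m)` -/

namespace Pool.Agent.KS6_67.ZW

open Set

/-- The cube `[0,1]^d`. -/
abbrev Cube (d : ℕ) := Set.Icc (0 : Fin d → ℝ) 1

variable {q m : ℕ}

/-- first coordinates -/
def fstL (q m : ℕ) : (Fin (q + m) → ℝ) →ₗ[ℝ] (Fin q → ℝ) where
  toFun x i := x (Fin.castAdd m i)
  map_add' _ _ := rfl
  map_smul' _ _ := rfl

/-- last coordinates -/
def sndL (q m : ℕ) : (Fin (q + m) → ℝ) →ₗ[ℝ] (Fin m → ℝ) where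
  toFun x i := x (Fin.natAdd q i)
  map_add' _ _ := rfl
  map_smul' _ _ := rfl

/-- all coordinates -/
def appL (q m : ℕ) : ((Fin q → ℝ) × (Fin m → ℝ)) →ₗ[ℝ] (Fin (q + m) → ℝ) where
  toFun p := Fin.append p.1 p.2
  map_add' p p' := by
    ext i
    refine Fin.addCases (fun i => ?_) (fun i => ?_) i <;> simp
  map_smul' c p := by
    ext i
    refine Fin.addCases (fun i => ?_) (fun i => ?_) i <;> simp

@[simp] lemma appL_apply (p : (Fin q → ℝ) × (Fin m → ℝ)) : appL q m p = Fin.append p.1 p.2 := rfl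

lemma app_fst_snd (x : Fin (q + m) → ℝ) : Fin.append (fstL q m x) (sndL q m x) = x := by
  ext i
  refine Fin.addCases (fun i => ?_) (fun i => ?_) i <;> simp [fstL, sndL]

@[simp] lemma fst_app (y : Fin q → ℝ) (z : Fin m → ℝ) : fstL q m (Fin.append y z) = y := by
  ext i
  simp [fstL]

@[simp] lemma snd_app (y : Fin q → ℝ) (z : Fin m → ℝ) : sndL q m (Fin.append y z) = z := by
  ext i
  simp [sndL]

lemma mem_cube_iff (x : Fin (q + m) → ℝ) :
    x ∈ Cube (q + m) ↔ fstL q m x ∈ Cube q ∧ sndL q m x ∈ Cube m := by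
  constructor
  · rintro ⟨h1, h2⟩
    exact ⟨⟨fun i => h1 _, fun i => h2 _⟩, ⟨fun i => h1 _, fun i => h2 _⟩⟩
  · rintro ⟨⟨h1, h2⟩, ⟨h3, h4⟩⟩
    constructor
    · intro i
      refine Fin.addCases (fun i => ?_) (fun i => ?_) i
      · exact h1 i
      · exact h3 i
    · intro i
      refine Fin.addCases (fun i => ?_) (fun i => ?_) i
      · exact h2 i
      · exact h4 i

/-- first coordinates of a point of the cube -/
def fstC (x : Cube (q + m)) : Cube q := ⟨fstL q m x.1, ((mem_cube_iff x.1).1 x.2).1⟩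

/-- `g × id` as a map -/
def extFun (g : Cube q → Cube q) (x : Cube (q + m)) : Cube (q + m) :=
  ⟨Fin.append (g (fstC x)).1 (sndL q m x.1), by
    rw [mem_cube_iff, fst_app, snd_app]
    exact ⟨(g (fstC x)).2, ((mem_cube_iff x.1).1 x.2).2⟩⟩

lemma fstC_ext (g : Cube q → Cube q) (x : Cube (q + m)) : fstC (extFun g x) = g (fstC x) := by
  apply Subtype.ext
  show fstL q m (Fin.append _ _) = _
  rw [fst_app]

lemma ext_comp (g h : Cube q → Cube q) (x : Cube (q + m)) :
    extFun g (extFun h x) = extFun (g ∘ h) x := by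
  apply Subtype.ext
  show Fin.append (g (fstC (extFun h x))).1 (sndL q m (Fin.append _ _)) = _
  rw [fstC_ext, snd_app]
  rfl

lemma ext_id (x : Cube (q + m)) : extFun (id : Cube q → Cube q) x = x := by
  apply Subtype.ext
  exact app_fst_snd x.1

/-- `g ↦ g × id` -/
def ext (q m : ℕ) : Equiv.Perm (Cube q) →* Equiv.Perm (Cube (q + m)) where
  toFun g :=
    { toFun := extFun g
      invFun := extFun g.symm
      left_inv := fun x => by
        rw [ext_comp]
        simp only [Equiv.symm_comp_self]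
        exact ext_id x
      right_inv := fun x => by
        rw [ext_comp]
        simp only [Equiv.self_comp_symm]
        exact ext_id x }
  map_one' := by
    ext1 x
    exact ext_id x
  map_mul' g h := by
    ext1 x
    exact (ext_comp g h x).symm

lemma ext_apply (g : Equiv.Perm (Cube q)) (x : Cube (q + m)) : ext q m g x = extFun g x := rfl

lemma ext_inj : Function.Injective (ext q m) := by
  intro g h hgh
  ext1 y
  let x : Cube (q + m) := ⟨Fin.append y.1 0, by
    rw [mem_cube_iff, fst_app, snd_app]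
    exact ⟨y.2, ⟨le_rfl, zero_le_one⟩⟩⟩
  have hx : fstC x = y := Subtype.ext (fst_app _ _)
  have h1 := congrArg fstC (DFunLike.congr_fun hgh x)
  rw [ext_apply, ext_apply, fstC_ext, fstC_ext, hx] at h1
  exact h1

lemma ext_cont {g : Cube q → Cube q} (hg : Continuous g) :
    Continuous (extFun g : Cube (q + m) → Cube (q + m)) := by
  have h0 : Continuous (fstC : Cube (q + m) → Cube q) := by
    refine Continuous.subtype_mk ?_ _
    exact (LinearMap.continuous_of_finiteDimensional (fstL q m)).comp continuous_subtype_val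
  have h1 : Continuous (fun x : Cube (q + m) => (g (fstC x)).1) :=
    continuous_subtype_val.comp (hg.comp h0)
  have h2 : Continuous (fun x : Cube (q + m) => sndL q m x.1) :=
    (LinearMap.continuous_of_finiteDimensional (sndL q m)).comp continuous_subtype_val
  refine Continuous.subtype_mk ?_ _
  exact (LinearMap.continuous_of_finiteDimensional (appL q m)).comp (h1.prodMk h2)

/-- `g` is a piecewise linear homeomorphism of the cube: it and its inverse are continuous, and the
cube is covered by finitely many polytopes on each of which `g` is affine. -/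
def IsPL (d : ℕ) (g : Equiv.Perm (Cube d)) : Prop :=
  Continuous ⇑g ∧ Continuous ⇑g.symm ∧
    ∃ (k : ℕ) (S : Fin k → Finset (Fin d → ℝ)) (A : Fin k → ((Fin d → ℝ) →ᵃ[ℝ] (Fin d → ℝ))),
      (∀ x : Cube d, ∃ i, x.1 ∈ convexHull ℝ (↑(S i) : Set (Fin d → ℝ))) ∧
      (∀ i, ∀ x : Cube d, x.1 ∈ convexHull ℝ (↑(S i) : Set (Fin d → ℝ)) → (g x).1 = A i x.1)

lemma cube_eq_hull (m : ℕ) :
    (Set.Icc (0 : Fin m → ℝ) 1) ⊆ convexHull ℝ (Set.univ.pi fun _ => ({0, 1} : Set ℝ)) := by
  rw [convexHull_pi]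
  intro x hx i _
  rw [convexHull_pair, segment_eq_Icc zero_le_one]
  exact ⟨hx.1 i, hx.2 i⟩

lemma ext_PL {g : Equiv.Perm (Cube q)} (hg : IsPL q g) : IsPL (q + m) (ext q m g) := by
  classical
  obtain ⟨h1, h2, k, S, A, h3, h4⟩ := hg
  refine ⟨ext_cont h1, ext_cont h2, k, fun i => (((S i) ×ˢ
    (Fintype.piFinset fun _ : Fin m => ({0, 1} : Finset ℝ))).image fun p => Fin.append p.1 p.2),
    fun i => (appL q m).toAffineMap.comp
      (((A i).comp (fstL q m).toAffineMap).prod (sndL q m).toAffineMap), ?_, ?_⟩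
  · intro x
    obtain ⟨i, hi⟩ := h3 (fstC x)
    refine ⟨i, ?_⟩
    have e1 : ((((S i) ×ˢ (Fintype.piFinset fun _ : Fin m => ({0, 1} : Finset ℝ))).image
        fun p => Fin.append p.1 p.2 : Finset (Fin (q + m) → ℝ)) : Set (Fin (q + m) → ℝ)) =
        (appL q m) '' (((S i : Finset (Fin q → ℝ)) : Set (Fin q → ℝ)) ×ˢ
          (Set.univ.pi fun _ : Fin m => ({0, 1} : Set ℝ))) := by
      rw [Finset.coe_image, Finset.coe_product]
      congr 2
      ext z
      simp
    rw [e1, ← LinearMap.image_convexHull, convexHull_prod]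
    refine ⟨(fstL q m x.1, sndL q m x.1), ⟨hi, cube_eq_hull m ((mem_cube_iff x.1).1 x.2).2⟩, ?_⟩
    exact app_fst_snd x.1
  · intro i x hx
    have hx1 : (fstC x).1 ∈ convexHull ℝ (↑(S i) : Set (Fin q → ℝ)) := by
      have h5 : fstL q m x.1 ∈ (fstL q m) '' convexHull ℝ
          (((((S i) ×ˢ (Fintype.piFinset fun _ : Fin m => ({0, 1} : Finset ℝ))).image
            fun p => Fin.append p.1 p.2 : Finset (Fin (q + m) → ℝ)) :
              Set (Fin (q + m) → ℝ))) := ⟨x.1, hx, rfl⟩
      rw [LinearMap.image_convexHull] at h5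
      refine convexHull_mono ?_ h5
      rintro _ ⟨_, hp, rfl⟩
      simp only [Finset.coe_image, Finset.coe_product, Set.mem_image, Set.mem_prod,
        Finset.mem_coe] at hp
      obtain ⟨p, hp, rfl⟩ := hp
      rw [fst_app]
      exact hp.1
    have h6 := h4 i (fstC x) hx1
    show Fin.append (g (fstC x)).1 (sndL q m x.1) = Fin.append (A i (fstL q m x.1)) (sndL q m x.1)
    rw [h6]
    rfl

end Pool.Agent.KS6_67.ZW
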